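import Mathlib
import Pool.Agent.Lib.MP_938ce2_ag_L4.Final3

/-!
The share of the CM types `Φ` of a CM field `E` for which the powers of the abelian variety of type
`(E, Φ)` carry Tate classes which are not generated by divisor classes, up to a constant factor and an
arbitrarily small error, for every CM field `E` of large degree; and the criterion for this share to tend
to zero.
-/

set_option autoImplicit false

namespace Pool.Agent.Results.MP_938ce2_ag.CMTypeCriterion

open Module NumberField Filter Topology
open Pool.Agent.Lib.MP_938ce2_ag_h60 (CMType GeneratedByDivisors conj)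
open Pool.Agent.Lib.MP_938ce2_ag_L3 (ImagQuad SmallCM share)
open Pool.Agent.Lib.MP_938ce2_ag_L4 (DihedralCM)

/-- `L` is a Galois CM field into which the CM field `E` of degree `2 g` embeds, for instance the Galois
closure of `E`. `share L E` is the share of the `2 ^ g` CM types of `E` which are not
`GeneratedByDivisors`. `ImagQuad E` is the set of the imaginary quadratic subfields of `E`, `SmallCM E` the
set of the CM subfields of degree four and of those of degree six which contain an imaginary quadratic
field, `DihedralCM E` the set of the CM subfields which are Galois over `ℚ` with a dihedral Galois group of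
order eight or twelve. -/
theorem result :
    (∃ C : ℝ, 0 < C ∧ ∀ η : ℝ, 0 < η → ∃ g₀ : ℕ, ∀ (L E : Type) [Field L] [NumberField L]
      [IsGalois ℚ L] [IsCMField L] [Field E] [NumberField E] [IsCMField E]
      [Nonempty (E →ₐ[ℚ] L)] (g : ℕ) (m : ℝ), finrank ℚ E = 2 * g → g₀ ≤ g →
      m = ((ImagQuad E).ncard : ℝ) / √(g : ℝ) + ((SmallCM E).ncard : ℝ) / g
        + ((DihedralCM E).ncard : ℝ) * Real.log (2 * g) / g →
      min 1 m ≤ C * share L E + η ∧ share L E ≤ C * m + η) ∧
    (∀ (L E : ℕ → Type) [∀ i, Field (L i)] [∀ i, NumberField (L i)] [∀ i, IsGalois ℚ (L i)]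
      [∀ i, IsCMField (L i)] [∀ i, Field (E i)] [∀ i, NumberField (E i)] [∀ i, IsCMField (E i)]
      [∀ i, Nonempty (E i →ₐ[ℚ] L i)],
      Tendsto (fun i => finrank ℚ (E i)) atTop atTop →
      (Tendsto (fun i => share (L i) (E i)) atTop (𝓝 0) ↔
        Tendsto (fun i => ((ImagQuad (E i)).ncard : ℝ) / √(finrank ℚ (E i) : ℝ)) atTop (𝓝 0) ∧
        Tendsto (fun i => ((SmallCM (E i)).ncard : ℝ) / (finrank ℚ (E i) : ℝ)) atTop (𝓝 0) ∧
        Tendsto (fun i => ((DihedralCM (E i)).ncard : ℝ) * Real.log (finrank ℚ (E i)) /
          (finrank ℚ (E i) : ℝ)) atTop (𝓝 0))) :=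
  Pool.Agent.Lib.MP_938ce2_ag_L4.final3

end Pool.Agent.Results.MP_938ce2_ag.CMTypeCriterion
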