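import Mathlib
import Pool.Agent.Lib.MP_938ce2_ag_h99w.F03
import Pool.Agent.Lib.MP_938ce2_ag_h7s.LiftAlg
import Pool.Agent.Lib.MP_938ce2_ag_h6.Frobenius

/-!
# Tate classes on all Fermat varieties of dimension at most six

The primitive cohomology `H^n` of the Fermat variety of degree `m` and even dimension `n` is the
direct sum of lines `V(s)`, where `s` runs over the families of `n + 2` nonzero residues modulo `m`
with sum zero.  By Weil the Frobenius at a prime of `ℚ(μ_m)` of degree one above `p` acts on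
`V(s)`, up to sign, as `p⁻¹ ∏ g(χ ^ a, ψ)`, where `χ` is a character of order `m` modulo `p`; so
`V(s)(n / 2)` consists of Tate classes iff `IsTate s`.  `IsAlg false` collects the characters whose
lines are spanned by algebraic classes by published geometric constructions, `IsAlg true` adds the
sums `Theta`.  The pull-back of `V(s)` to the Fermat variety of degree `k m` is `V(lift s)`.
-/

set_option autoImplicit false

open Finset

namespace Pool.Agent.Results.MP_938ce2_ag.FermatSixfolds

/-- The Tate condition, in terms of Frobenius eigenvalues: some power of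
`∏ g(χ ^ a, ψ) / p ^ (l / 2)`, the product over the `l` elements `a` of `s`, is one, for all `p`,
`χ`, `ψ`. -/
def IsTate {m : ℕ} (s : Multiset (ZMod m)) : Prop :=
  (0 : ZMod m) ∉ s ∧ s.sum = 0 ∧
    ∀ (p : ℕ) [Fact p.Prime] (χ : MulChar (ZMod p) ℂ) (ψ : AddChar (ZMod p) ℂ),
      orderOf χ = m → ψ ≠ 1 → ∃ k, 0 < k ∧
        (s.map fun a => gaussSum (χ ^ a.val) ψ).prod ^ (2 * k) = (p : ℂ) ^ (s.card * k)

/-- `s` is a character of a product of `k ≤ 2` Fermat varieties of total dimension four, one for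
each zero-sum block, whose quotient by the kernel of `s` is dominated by the Delsarte complete
intersection `∑_{g i = b} ∏_j X_j ^ μ j i = 0` (`b < k`) in the weighted projective space with
weights `c`, of degrees `d b` with `∑ d b < ∑ c j`; so this quotient is a uniruled fourfold. -/
def Fano {m : ℕ} (s : Multiset (ZMod m)) : Prop :=
  ∃ (k : ℕ) (a : Fin (2 * k + 4) → ZMod m) (g : Fin (2 * k + 4) → Fin k)
    (μ : Fin (k + 5) → Fin (2 * k + 4) → ℕ) (c : Fin (k + 5) → ℕ) (d : Fin k → ℕ),
    k ≤ 2 ∧ s = univ.val.map a ∧ Function.Surjective g ∧ (∀ b, ∑ i with g i = b, a i = 0) ∧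
    (∀ j, ∑ i, μ j i * a i = 0) ∧ (∀ j, 0 < c j) ∧ (∀ i, ∑ j, c j * μ j i = d (g i)) ∧
    ∑ b, d b < ∑ j, c j ∧
    ∀ u : Fin (k + 5) → ℤ, (∀ i i', g i = g i' → ∑ j, u j * μ j i = ∑ j, u j * μ j i') →
      ∀ j j', c j * u j' = c j' * u j

open Classical in
/-- `s` is a sum of sets `{c + j m / D : (j / p) = ε p for all primes p ∣ D}`, where `4 c = 0` and
`D ∣ m` is odd and squarefree.  These are the exponents at infinity of tensor products of odd and
even parts of the Weil representations modulo `p`, `p ∣ D`, twisted by characters of the modular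
group. -/
def Theta {m : ℕ} [NeZero m] (s : Multiset (ZMod m)) : Prop :=
  s ∈ AddSubmonoid.closure {t | ∃ (c : ZMod m) (D : ℕ) (ε : ℕ → ℤˣ), 4 * c = 0 ∧ D ∣ m ∧
    Squarefree D ∧ Odd D ∧
    t = (univ.filter fun x : ZMod m => ∃ j : ℕ, x = c + (m / D * j : ℕ) ∧
      ∀ p, p.Prime → p ∣ D → jacobiSym j p = ε p).val}

/-- Characters of algebraic cycles: `low`, cycles on Fermat surfaces (and curves, points); `aoki`,
the cycles of Aoki attached to an odd prime `p` dividing `m`; `fano`, uniruled fourfolds; `theta`,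
only for `e = true`, determinants of local systems on the `j`-line; `join` and `cut`, the inductive
structure of Shioda and Katsura. -/
inductive IsAlg {m : ℕ} [NeZero m] (e : Bool) : Multiset (ZMod m) → Prop
  | low (s : Multiset (ZMod m)) : IsTate s → s.card ≤ 4 → IsAlg e s
  | fano (s : Multiset (ZMod m)) : IsTate s → Fano s → IsAlg e s
  | theta (s : Multiset (ZMod m)) : e = true → IsTate s → Theta s → IsAlg e s
  | aoki (p : ℕ) (a : ZMod m) : p.Prime → p ≠ 2 → p ∣ m → (p : ZMod m) * a ≠ 0 →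
      IsAlg e ((univ.filter fun x : ZMod m => (p : ZMod m) * x = (p : ZMod m) * a).val
        + {-((p : ZMod m) * a)})
  | join (s t : Multiset (ZMod m)) : IsAlg e s → IsAlg e t → IsAlg e (s + t)
  | cut (s : Multiset (ZMod m)) (b : ZMod m) : b ≠ 0 → IsAlg e (s + {b, -b}) → IsAlg e s

/-- The character of degree `M` obtained from one of degree `m`, for `m ∣ M`. -/
def lift (M : ℕ) {m : ℕ} (s : Multiset (ZMod m)) : Multiset (ZMod M) :=
  s.map fun a => ((M / m * a.val : ℕ) : ZMod M)

open Pool.Agent.Lib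

lemma isTate_iff {m : ℕ} [NeZero m] (s : Multiset (ZMod m)) :
    IsTate s ↔ MP_938ce2_ag_h6.IsTate s :=
  MP_938ce2_ag_h6.Frob.frobTate_iff s

lemma theta_of {m : ℕ} [NeZero m] {s : Multiset (ZMod m)} (h : MP_938ce2_ag_h99v.Theta1 s) :
    Theta s := by
  unfold MP_938ce2_ag_h99v.Theta1 at h
  unfold Theta
  refine AddSubmonoid.closure_mono ?_ h
  rintro _ ⟨c, D, ε, ⟨h1, h2, h3, h4⟩, rfl⟩
  refine ⟨c, D, ε, h1, h2, h3, ?_, rfl⟩
  rw [← Nat.not_even_iff_odd, even_iff_two_dvd]
  exact fun h => h4 2 Nat.prime_two h rfl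

lemma toAlg {m : ℕ} [NeZero m] {s : Multiset (ZMod m)}
    (h : MP_938ce2_ag_h99.IsAlgG MP_938ce2_ag_h99v.GT1 s) : IsAlg true s := by
  induction h with
  | low s h1 h2 => exact IsAlg.low s ((isTate_iff s).mpr h1) h2
  | base s h1 h2 =>
    rcases h2 with h2 | h2
    · exact IsAlg.fano s ((isTate_iff s).mpr h1) h2
    · exact IsAlg.theta s rfl ((isTate_iff s).mpr h1) (theta_of h2)
  | aoki p a h1 h2 h3 h4 => exact IsAlg.aoki p a h1 h2 h3 h4
  | join s t _ _ h1 h2 => exact IsAlg.join s t h1 h2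
  | cut s b h1 _ h2 => exact IsAlg.cut s b h1 h2

lemma toAlgF {m : ℕ} [NeZero m] {s : Multiset (ZMod m)}
    (h : MP_938ce2_ag_h99.IsAlgG MP_938ce2_ag_h99.Fano s) : IsAlg false s := by
  induction h with
  | low s h1 h2 => exact IsAlg.low s ((isTate_iff s).mpr h1) h2
  | base s h1 h2 => exact IsAlg.fano s ((isTate_iff s).mpr h1) h2
  | aoki p a h1 h2 h3 h4 => exact IsAlg.aoki p a h1 h2 h3 h4
  | join s t _ _ h1 h2 => exact IsAlg.join s t h1 h2
  | cut s b h1 _ h2 => exact IsAlg.cut s b h1 h2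

lemma lift_eq {m M : ℕ} [NeZero m] (h : m ∣ M) (s : Multiset (ZMod m)) :
    lift M s = s.map (MP_938ce2_ag_h99.jj h) := by
  unfold lift
  apply Multiset.map_congr rfl
  intro a _
  rw [← MP_938ce2_ag_h99.jj_natCast h, ZMod.natCast_zmod_val]

/-- For a constant `L`, the Tate characters of the Fermat varieties of degree `m` and dimension at
most four (if `110` does not divide `m`) or at most six become algebraic in all degrees divisible by
`L m`. -/
theorem result : ∃ L : ℕ, 0 < L ∧ ∀ (m M : ℕ) [NeZero m] [NeZero M], L * m ∣ M →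
    ∀ s : Multiset (ZMod m), IsTate s →
      (¬ 110 ∣ m → s.card ≤ 6 → IsAlg false (lift M s)) ∧ (s.card ≤ 8 → IsAlg true (lift M s)) := by
  obtain ⟨L, hL, h⟩ := MP_938ce2_ag_h99w.tate_all8
  refine ⟨420 * L, by omega, ?_⟩
  intro m M _ _ hM s hs
  have hm : m ∣ M := (Dvd.intro_left _ rfl).trans hM
  have hLm : L * m ∣ M := (Dvd.intro_left 420 (by ring)).trans hM
  have h420 : 420 * m ∣ M := (Dvd.intro L (by ring)).trans hM
  refine ⟨fun h110 h6 => ?_, fun h8 => ?_⟩
  · rw [lift_eq hm]
    exact toAlgF (MP_938ce2_ag_h7s.four h420 hm ((isTate_iff s).mp hs) h6 h110)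
  · rw [lift_eq hm]
    exact toAlg (h m M hLm hm s ((isTate_iff s).mp hs) h8)

end Pool.Agent.Results.MP_938ce2_ag.FermatSixfolds
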